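import Pool.Agent.H98.PW.Stmts

/-!
# PW, module TAY: Taylor expansion up to terms of degree two
-/

set_option autoImplicit false

namespace Pool.PW

open Finset MvPolynomial

namespace TAY63

/-- All monomials have degree at least `d`. -/
def Dg {n : ℕ} (d : ℕ) (Q : MvPolynomial (Fin n) ℤ) : Prop := ∀ c ∈ Q.support, d ≤ ∑ k, c k

theorem Dg.zero {n : ℕ} (d : ℕ) : Dg d (0 : MvPolynomial (Fin n) ℤ) := by
  intro c hc
  simp at hc

theorem Dg.triv {n : ℕ} (Q : MvPolynomial (Fin n) ℤ) : Dg 0 Q := fun _ _ => Nat.zero_le _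

theorem Dg.add {n d : ℕ} {A B : MvPolynomial (Fin n) ℤ} (hA : Dg d A) (hB : Dg d B) :
    Dg d (A + B) := by
  classical
  intro c hc
  rcases Finset.mem_union.mp (support_add hc) with h | h
  · exact hA c h
  · exact hB c h

theorem Dg.sum {n d : ℕ} {ι : Type} (s : Finset ι) {A : ι → MvPolynomial (Fin n) ℤ}
    (hA : ∀ i ∈ s, Dg d (A i)) : Dg d (∑ i ∈ s, A i) := by
  classical
  induction s using Finset.induction_on with
  | empty => simpa using Dg.zero d
  | insert a s ha ih =>
    rw [sum_insert ha]
    exact (hA a (mem_insert_self a s)).add (ih fun i hi => hA i (mem_insert_of_mem hi))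

theorem Dg.mul {n a b : ℕ} {A B : MvPolynomial (Fin n) ℤ} (hA : Dg a A) (hB : Dg b B) :
    Dg (a + b) (A * B) := by
  classical
  intro c hc
  obtain ⟨x, hx, y, hy, rfl⟩ := Finset.mem_add.mp (support_mul A B hc)
  have h1 : ∑ k, (x + y) k = ∑ k, x k + ∑ k, y k := by
    rw [← sum_add_distrib]
    rfl
  rw [h1]
  exact add_le_add (hA x hx) (hB y hy)

theorem Dg.X {n : ℕ} (i : Fin n) : Dg 1 (MvPolynomial.X i : MvPolynomial (Fin n) ℤ) := by
  classical
  intro c hc
  rw [support_X, Finset.mem_singleton] at hc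
  rw [hc]
  calc 1 = (Finsupp.single i 1 : Fin n →₀ ℕ) i := by simp
    _ ≤ ∑ k, (Finsupp.single i 1 : Fin n →₀ ℕ) k :=
      Finset.single_le_sum (fun _ _ => Nat.zero_le _) (mem_univ i)

end TAY63

open TAY63 in
theorem tay_thm : S_TAY := by
  classical
  intro n P F
  induction F using MvPolynomial.induction_on with
  | C a =>
    refine ⟨0, Dg.zero 2, fun w => ?_⟩
    simp
  | add F G hF hG =>
    obtain ⟨Q, hQ, hQw⟩ := hF
    obtain ⟨R, hR, hRw⟩ := hG
    refine ⟨Q + R, Dg.add hQ hR, fun w => ?_⟩
    rw [map_add, hQw w, hRw w, map_add, map_add]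
    have h1 : ∑ k, eval P (pderiv k (F + G)) * w k =
        ∑ k, eval P (pderiv k F) * w k + ∑ k, eval P (pderiv k G) * w k := by
      rw [← sum_add_distrib]
      refine sum_congr rfl fun k _ => ?_
      rw [map_add, map_add]
      ring
    rw [h1]
    ring
  | mul_X F i hF =>
    obtain ⟨Q, hQ, hQw⟩ := hF
    refine ⟨Q * (C (P i) + X i) + X i * ∑ k, X k * C (eval P (pderiv k F)), ?_, fun w => ?_⟩
    · refine Dg.add ?_ ?_
      · have h1 := Dg.mul (a := 2) hQ (Dg.triv (C (P i) + X i))
        exact h1
      · have h1 : Dg 1 (∑ k, (X k * C (eval P (pderiv k F)) : MvPolynomial (Fin n) ℤ)) :=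
          Dg.sum _ fun k _ => Dg.mul (Dg.X k) (Dg.triv _)
        exact Dg.mul (Dg.X i) h1
    · have h1 : ∑ k, eval P (pderiv k (F * X i)) * w k =
          (∑ k, eval P (pderiv k F) * w k) * P i + eval P F * w i := by
        have h2 : ∀ k, eval P (pderiv k (F * X i)) * w k =
            eval P (pderiv k F) * w k * P i + (if k = i then eval P F * w k else 0) := by
          intro k
          rw [pderiv_mul, pderiv_X, map_add, map_mul, map_mul, eval_X]
          by_cases hk : k = i
          · subst hk
            rw [Pi.single_eq_same, map_one, if_pos rfl]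
            ring
          · rw [if_neg hk, Pi.single_eq_of_ne (Ne.symm hk), map_zero]
            ring
        simp only [h2]
        rw [sum_add_distrib, sum_ite_eq' univ i, if_pos (mem_univ i), sum_mul]
      have h3 : eval w (∑ k, (X k * C (eval P (pderiv k F)) : MvPolynomial (Fin n) ℤ)) =
          ∑ k, eval P (pderiv k F) * w k := by
        rw [map_sum]
        refine sum_congr rfl fun k _ => ?_
        rw [map_mul, eval_X, eval_C]
        ring
      rw [h1, map_mul, hQw w, map_mul, eval_X, eval_X, map_add, map_mul, map_mul, h3, map_add,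
        eval_C, eval_X]
      ring

end Pool.PW
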